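import Pool.Agent.H.MP_3699be_gt.Defs

namespace Pool.Agent.H.MP_3699be_gt

open Set Filter Topology Complex Metric

variable {S : Set ℂ}

def Reg (S : Set ℂ) (x d : ℂ) : Prop :=
  ∃ ε : ℝ, 0 < ε ∧ ∀ z, ‖z - x‖ < ε → (z ∈ S ↔ ∃ t : ℝ, z = x + t * d)

def Tri (S : Set ℂ) (x d : ℂ) : Prop :=
  ∃ ε : ℝ, 0 < ε ∧
    ∀ z, ‖z - x‖ < ε → (z ∈ S ↔ ∃ t : ℝ, 0 ≤ t ∧ ∃ w : ℂ, w ^ 3 = 1 ∧ z = x + t * (w * d))

theorem Net120.ls (h : Net120 S) {x : ℂ} (hx : x ∈ S) :
    ∃ d : ℂ, ‖d‖ = 1 ∧ (Reg S x d ∨ Tri S x d) := by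
  obtain ⟨ε, hε, d, hd, h | h⟩ := h x hx
  exacts [⟨d, hd, Or.inl ⟨ε, hε, h⟩⟩, ⟨d, hd, Or.inr ⟨ε, hε, h⟩⟩]

noncomputable def om (s : ℝ) : ℂ := ⟨-1 / 2, s * √3 / 2⟩

theorem s3 : √3 * √3 = 3 := Real.mul_self_sqrt (by norm_num)

theorem om_cube {s : ℝ} (hs : s * s = 1) : om s ^ 3 = 1 := by
  apply Complex.ext <;> simp [om, pow_succ]
  · linear_combination (3 / 8 * (s * s)) * s3 + (9 / 8) * hs
  · linear_combination (-(s * s * s * √3) / 8) * s3 + (-3 * s * √3 / 8) * hs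

theorem norm_cube {w : ℂ} (h : w ^ 3 = 1) : ‖w‖ = 1 := by
  have := congrArg norm h
  rw [norm_pow, norm_one] at this
  exact (pow_eq_one_iff_of_nonneg (norm_nonneg w) (by norm_num)).1 this

theorem small (x d : ℂ) {ε : ℝ} (hε : 0 < ε) : ∀ᶠ t : ℝ in 𝓝 0, ‖x + t * d - x‖ < ε := by
  have : Continuous fun t : ℝ => ‖x + t * d - x‖ := by fun_prop
  exact (this.tendsto' 0 0 (by simp)).eventually (gt_mem_nhds hε)

theorem Reg.ev {x d : ℂ} (h : Reg S x d) : ∀ᶠ t : ℝ in 𝓝 0, x + t * d ∈ S := by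
  obtain ⟨ε, hε, h⟩ := h
  filter_upwards [small x d hε] with t ht using (h _ ht).2 ⟨t, rfl⟩

theorem Tri.ev {x d w : ℂ} (h : Tri S x d) (hw : w ^ 3 = 1) :
    ∀ᶠ t : ℝ in 𝓝[>] 0, x + t * (w * d) ∈ S := by
  obtain ⟨ε, hε, h⟩ := h
  filter_upwards [nhdsWithin_le_nhds (small x (w * d) hε), self_mem_nhdsWithin] with t ht h0
    using (h _ ht).2 ⟨t, le_of_lt h0, w, hw, rfl⟩

theorem Reg.neg {x d : ℂ} (h : Reg S x d) : Reg S x (-d) := by
  obtain ⟨ε, hε, h⟩ := h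
  refine ⟨ε, hε, fun z hz => (h z hz).trans ⟨?_, ?_⟩⟩ <;>
    exact fun ⟨t, ht⟩ => ⟨-t, by rw [ht]; push_cast; ring⟩

theorem lp (h : Net120 S) {x : ℂ} (hx : x ∈ S) (l : ℂ →L[ℝ] ℝ) :
    ∃ d : ℂ, ‖d‖ = 1 ∧ 0 ≤ l d ∧ ∀ᶠ t : ℝ in 𝓝[>] 0, x + t * d ∈ S := by
  obtain ⟨d, hd, h | h⟩ := h.ls hx
  · rcases le_total 0 (l d) with h1 | h1
    · exact ⟨d, hd, h1, nhdsWithin_le_nhds h.ev⟩
    · exact ⟨-d, by simpa, by simpa, nhdsWithin_le_nhds h.neg.ev⟩
  · have key : ∀ w : ℂ, w ^ 3 = 1 → 0 ≤ l (w * d) →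
        ∃ d : ℂ, ‖d‖ = 1 ∧ 0 ≤ l d ∧ ∀ᶠ t : ℝ in 𝓝[>] 0, x + t * d ∈ S := fun w hw h1 =>
      ⟨w * d, by rw [norm_mul, norm_cube hw, hd, one_mul], h1, h.ev hw⟩
    have : l (1 * d) + l (om 1 * d) + l (om (-1) * d) = 0 := by
      rw [← map_add, ← map_add, ← add_mul, ← add_mul]
      have : 1 + om 1 + om (-1) = 0 := by apply Complex.ext <;> simp [om] <;> ring
      simp [this]
    by_contra hc
    have h1 := mt (key 1 (by simp)) hc
    have h2 := mt (key _ (om_cube (s := 1) (by simp))) hc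
    have h3 := mt (key _ (om_cube (s := -1) (by simp))) hc
    linarith [not_le.1 h1, not_le.1 h2, not_le.1 h3]

theorem no_max (h : Net120 S) {x : ℂ} (hx : x ∈ S) (l : ℂ →L[ℝ] ℝ) (c : ℂ) {η : ℝ} (hη : 0 < η)
    {U : Set ℂ} (hU : U ∈ 𝓝 x) :
    ∃ y ∈ S ∩ U, l x + η * ‖x - c‖ ^ 2 < l y + η * ‖y - c‖ ^ 2 := by
  obtain ⟨d, hd, h1, h2⟩ := lp h hx (l + (2 * η) • innerSL ℝ (x - c))
  have h3 : ∀ᶠ t : ℝ in 𝓝 0, x + t * d ∈ U := by
    have : Continuous fun t : ℝ => x + t * d := by fun_prop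
    exact (this.tendsto' 0 x (by simp)).eventually hU
  obtain ⟨t, ⟨ht, ht'⟩, h0⟩ :=
    ((h2.and (nhdsWithin_le_nhds h3)).and self_mem_nhdsWithin).exists
  refine ⟨_, ⟨ht, ht'⟩, ?_⟩
  have h0 : 0 < t := h0
  rw [show x + t * d - c = (x - c) + t • d by simp; ring, norm_add_sq_real, ← real_smul, map_add,
    map_smul, real_inner_smul_right, norm_smul, hd, mul_one, Real.norm_eq_abs, sq_abs]
  simp only [ContinuousLinearMap.add_apply, ContinuousLinearMap.smul_apply, innerSL_apply_apply,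
    smul_eq_mul] at h1 ⊢
  nlinarith [mul_nonneg h0.le h1, mul_pos hη (pow_pos h0 2)]

theorem escape (h : Net120 S) (hc : IsClosed S) {z : ℂ} (hz : z ∈ S) {r : ℝ} (hr : 0 ≤ r) :
    ∃ y ∈ S, dist y z = r := by
  obtain ⟨y, hy, hm⟩ := ((isCompact_closedBall z r).inter_left hc).exists_isMaxOn
    ⟨z, hz, mem_closedBall_self hr⟩ (f := fun y => ‖y - z‖) (by fun_prop)
  refine ⟨y, hy.1, le_antisymm hy.2 (not_lt.1 fun hlt => ?_)⟩
  obtain ⟨w, hw, h1⟩ := no_max h hy.1 0 z one_pos (closedBall_mem_nhds_of_mem hlt)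
  have : ‖w - z‖ ≤ ‖y - z‖ := hm hw
  simp only [ContinuousLinearMap.zero_apply, one_mul, zero_add] at h1
  nlinarith [norm_nonneg (w - z)]

/-- The part of the plane visible from the origin. -/
def Cn (S : Set ℂ) : Set ℂ := {x | ∀ t ∈ Icc (0 : ℝ) 1, t • x ∉ S}

theorem Cn.notMem {x : ℂ} (h : x ∈ Cn S) : x ∉ S := by simpa using h 1 ⟨zero_le_one, le_rfl⟩

theorem Cn.smul {x : ℂ} (h : x ∈ Cn S) {s : ℝ} (h0 : 0 ≤ s) (h1 : s ≤ 1) : s • x ∈ Cn S :=
  fun t ht => by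
    rw [smul_smul]; exact h _ ⟨mul_nonneg ht.1 h0, mul_le_one₀ ht.2 h0 h1⟩

theorem Cn.isOpen (hc : IsClosed S) : IsOpen (Cn S) := by
  refine isOpen_iff_mem_nhds.2 fun x hx => ?_
  refine isCompact_Icc.eventually_forall_of_forall_eventually (P := fun y t => t • y ∉ S)
    fun t ht => ?_
  have : Continuous fun p : ℂ × ℝ => p.2 • p.1 := by fun_prop
  exact (this.tendsto (x, t)).eventually (hc.isOpen_compl.mem_nhds (hx t ht))

noncomputable def hh (d : ℂ) : ℂ →L[ℝ] ℝ := d.re • imCLM - d.im • reCLM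

theorem hh_apply (d z : ℂ) : hh d z = d.re * z.im - d.im * z.re := by simp [hh]

theorem tri_free (h : Net120 S) (hc : IsClosed S) {a b : ℂ} (ha : a ∈ Cn S) (hb : b ∈ Cn S)
    (hD : hh a b ≠ 0) {α β : ℝ} (h0 : 0 ≤ α) (h1 : 0 ≤ β) (h2 : α + β < 1) :
    α • a + β • b ∉ S := fun hz => by
  set A : ℂ →L[ℝ] ℝ := -(hh a b)⁻¹ • hh b
  set B : ℂ →L[ℝ] ℝ := (hh a b)⁻¹ • hh a
  have hA : ∀ z, A z = -(hh a b)⁻¹ * hh b z := fun z => rfl
  have hB : ∀ z, B z = (hh a b)⁻¹ * hh a z := fun z => rfl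
  have dec : ∀ z, z = A z • a + B z • b := fun z => by
    apply Complex.ext <;> simp only [hA, hB, add_re, add_im, smul_re, smul_im, smul_eq_mul] <;>
      field_simp <;> simp only [hh_apply] <;> ring
  have e1 : A (α • a + β • b) = α := by
    rw [hA]; field_simp; simp only [hh_apply, add_re, add_im, smul_re, smul_im, smul_eq_mul]; ring
  have e2 : B (α • a + β • b) = β := by
    rw [hB]; field_simp; simp only [hh_apply, add_re, add_im, smul_re, smul_im, smul_eq_mul]; ring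
  set K := {z | 0 ≤ A z ∧ 0 ≤ B z ∧ A z + B z ≤ 1}
  have hM : ∀ z ∈ K, ‖z‖ ≤ ‖a‖ + ‖b‖ := fun z ⟨k1, k2, k3⟩ => by
    rw [dec z]
    refine (norm_add_le _ _).trans ?_
    rw [norm_smul, norm_smul, Real.norm_of_nonneg k1, Real.norm_of_nonneg k2]
    nlinarith [norm_nonneg a, norm_nonneg b]
  have hK : IsCompact K := by
    refine isCompact_of_isClosed_isBounded ?_ (isBounded_iff_forall_norm_le.2 ⟨_, hM⟩)
    exact (isClosed_le continuous_const A.continuous).inter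
      ((isClosed_le continuous_const B.continuous).inter
        (isClosed_le (A.continuous.add B.continuous) continuous_const))
  set η := (1 - α - β) / ((‖a‖ + ‖b‖) ^ 2 + 1)
  have hη : 0 < η := div_pos (by linarith) (by positivity)
  have hη' : η * ((‖a‖ + ‖b‖) ^ 2 + 1) = 1 - α - β := div_mul_cancel₀ _ (by positivity)
  have hz' : α • a + β • b ∈ S ∩ K := ⟨hz, by simp only [K, mem_setOf, e1, e2]; exact ⟨h0, h1, h2.le⟩⟩
  obtain ⟨y, hy, hm⟩ := (hK.inter_left hc).exists_isMaxOn ⟨_, hz'⟩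
    (f := fun y => (-(A + B)) y + η * ‖y - 0‖ ^ 2) (by fun_prop)
  obtain ⟨hyS, k1, k2, k3⟩ := hy
  have k4 : A y + B y < 1 := by
    have := hm hz'
    simp only [mem_setOf, ContinuousLinearMap.neg_apply, ContinuousLinearMap.add_apply, e1, e2,
      sub_zero] at this
    have h5 := pow_le_pow_left₀ (norm_nonneg y) (hM y ⟨k1, k2, k3⟩) 2
    nlinarith [mul_nonneg hη.le (sq_nonneg ‖α • a + β • b‖), mul_le_mul_of_nonneg_left h5 hη.le]
  have k5 : 0 < A y := lt_of_le_of_ne k1 fun h0 => hb (B y) ⟨k2, by linarith⟩ (by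
    rwa [dec y, ← h0, zero_smul, zero_add] at hyS)
  have k6 : 0 < B y := lt_of_le_of_ne k2 fun h0 => ha (A y) ⟨k1, by linarith⟩ (by
    rwa [dec y, ← h0, zero_smul, add_zero] at hyS)
  have hU : K ∈ 𝓝 y := by
    filter_upwards [A.continuous.continuousAt.eventually (le_mem_nhds k5),
      B.continuous.continuousAt.eventually (le_mem_nhds k6),
      (A.continuous.add B.continuous).continuousAt.eventually (ge_mem_nhds k4)] with z a b c
      using ⟨a, b, c⟩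
  obtain ⟨w, hw, h5⟩ := no_max h hyS (-(A + B)) 0 hη hU
  exact absurd (hm hw) (not_le.2 h5)

theorem Cn.convex (h : Net120 S) (hc : IsClosed S) : Convex ℝ (Cn S) := by
  intro a ha b hb α β h0 h1 h2
  by_cases hD : hh a b = 0
  · by_cases ha0 : a = 0
    · simpa [ha0] using Cn.smul hb h1 (by linarith)
    obtain ⟨s, rfl⟩ : ∃ s : ℝ, b = s • a := by
      have : normSq a ≠ 0 := by simpa
      refine ⟨(a.re * b.re + a.im * b.im) / normSq a, ?_⟩
      rw [hh_apply] at hD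
      apply Complex.ext <;> simp only [smul_re, smul_im, smul_eq_mul] <;> field_simp <;>
        rw [normSq_apply]
      · linear_combination (-a.im) * hD
      · linear_combination a.re * hD
    have e : ∀ s' : ℝ, s ≠ 0 → s' • a = (s' / s) • s • a := fun s' hs => by
      rw [smul_smul, div_mul_cancel₀ _ hs]
    rw [smul_smul, ← add_smul]
    rcases lt_or_ge (α + β * s) 0 with h3 | h3
    · have hs : s < 0 := by by_contra h4; nlinarith [mul_nonneg h1 (not_lt.1 h4)]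
      rw [e _ hs.ne]
      exact Cn.smul hb (div_nonneg_of_nonpos h3.le hs.le)
        ((div_le_one_of_neg hs).2 (by nlinarith))
    rcases le_or_gt (α + β * s) 1 with h4 | h4
    · exact Cn.smul ha h3 h4
    · have hs : 1 < s := by by_contra h4; nlinarith [mul_nonneg h1 (sub_nonneg.2 (not_lt.1 h4))]
      rw [e _ (by linarith)]
      exact Cn.smul hb (by positivity) ((div_le_one (by linarith)).2 (by nlinarith))
  · have ev : ∀ a ∈ Cn S, ∀ᶠ s : ℝ in 𝓝 1, s • a ∈ Cn S := fun a ha => by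
      have : Continuous fun s : ℝ => s • a := by fun_prop
      exact (this.tendsto' 1 a (by simp)).eventually ((Cn.isOpen hc).mem_nhds ha)
    obtain ⟨s, ⟨hs1, hs2⟩, hs⟩ := ((((ev a ha).and (ev b hb)).filter_mono
      (nhdsWithin_le_nhds (s := Ioi (1 : ℝ)))).and self_mem_nhdsWithin).exists
    have hs : 1 < s := hs
    have hs0 : s ≠ 0 := by linarith
    intro t ht
    have := tri_free h hc hs1 hs2 (α := t * α / s) (β := t * β / s) (by
      rw [map_smul, smul_eq_mul]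
      refine mul_ne_zero hs0 fun h5 => hD ?_
      simp only [hh_apply, smul_re, smul_im, smul_eq_mul] at h5 ⊢
      exact (mul_eq_zero.1 (show s * _ = 0 by linarith)).resolve_left hs0)
      (by have := ht.1; positivity) (by have := ht.1; positivity) (by
        rw [← add_div, div_lt_one (by linarith), ← mul_add, h2]; linarith [ht.2])
    rwa [smul_smul, smul_smul, div_mul_cancel₀ _ hs0, div_mul_cancel₀ _ hs0, mul_smul, mul_smul,
      ← smul_add] at this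

end Pool.Agent.H.MP_3699be_gt
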