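import Pool.Agent.H.MP_3699be_gt.A

namespace Pool.Agent.H.MP_3699be_gt

open Set Filter Topology Complex Metric

structure Setup {n : ℕ} (S : Set ℂ) (E : Fin n → Set ℂ) : Prop where
  net : Net120 S
  cl : IsClosed S
  zero : (0 : ℂ) ∉ S
  op : ∀ i, IsOpen (E i)
  disj : ∀ i j, i ≠ j → Disjoint (E i) (E j)
  cov : ⋃ i, E i = Sᶜ

variable {n : ℕ} {S : Set ℂ} {E : Fin n → Set ℂ}

theorem Setup.zero_mem (H : Setup S E) : (0 : ℂ) ∈ Cn S := fun t _ => by simpa using H.zero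

theorem Setup.clo (H : Setup S E) {z : ℂ} (hz : z ∈ closure (Cn S)) {t : ℝ} (h0 : 0 ≤ t)
    (h1 : t < 1) : t • z ∈ Cn S := by
  rcases h0.eq_or_lt with rfl | h0
  · simpa using H.zero_mem
  refine interior_subset ((Cn.convex H.net H.cl).openSegment_interior_closure_subset_interior
    (by rw [(Cn.isOpen H.cl).interior_eq]; exact H.zero_mem) hz ⟨1 - t, t, by linarith, h0, ?_⟩)
  simp

theorem Setup.subC (H : Setup S E) {W : Set ℂ} (hW : IsPreconnected W) (h1 : W ⊆ Sᶜ)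
    (h2 : (W ∩ Cn S).Nonempty) : W ⊆ Cn S := by
  refine hW.subset_of_closure_inter_subset (Cn.isOpen H.cl) h2 fun z hz t ht => ?_
  rcases ht.2.eq_or_lt with rfl | h
  · simpa using h1 hz.2
  · exact Cn.notMem (H.clo hz.1 ht.1 h)

theorem Setup.subE (H : Setup S E) {W : Set ℂ} (hW : IsPreconnected W) (h1 : W ⊆ Sᶜ) {j : Fin n}
    (h2 : (W ∩ E j).Nonempty) : W ⊆ E j := by
  refine hW.subset_left_of_subset_union (v := ⋃ i ∈ {i | i ≠ j}, E i) (H.op j)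
    (isOpen_biUnion fun i _ => H.op i) ?_ (fun z hz => ?_) h2
  · exact disjoint_iUnion₂_right.2 fun i hi => H.disj j i (Ne.symm hi)
  · obtain ⟨i, hi⟩ := mem_iUnion.1 (H.cov ▸ h1 hz)
    by_cases h : i = j
    · exact Or.inl (h ▸ hi)
    · exact Or.inr (mem_biUnion h hi)

theorem Setup.sup (H : Setup S E) (k : ℂ →L[ℝ] ℝ) {x y : ℂ} (hy : y ∈ Cn S) (h1 : k x < k y)
    (hx : x ∈ closure (Cn S ∩ {a | k a ≤ k x})) : x ∈ closure (Cn S ∩ {a | k a = k x}) := by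
  have hc : ContinuousWithinAt (fun a => a + ((k x - k a) / (k y - k a)) • (y - a))
      (Cn S ∩ {a | k a ≤ k x}) x :=
    ContinuousAt.continuousWithinAt (by fun_prop (disch := exact (sub_pos.2 h1).ne'))
  have := hc.mem_closure hx (t := Cn S ∩ {a | k a = k x}) fun a ⟨ha, ha'⟩ => by
    have ha' : k a ≤ k x := ha'
    have h2 : 0 < k y - k a := by linarith
    refine ⟨(Cn.convex H.net H.cl).add_smul_sub_mem ha hy ⟨div_nonneg (by linarith) h2.le,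
      (div_le_one h2).2 (by linarith)⟩, ?_⟩
    simp only [mem_setOf, map_add, map_smul, map_sub, smul_eq_mul]
    field_simp; ring
  simpa using this

theorem unit {d : ℂ} (hd : ‖d‖ = 1) : d.re * d.re + d.im * d.im = 1 := by
  rw [← normSq_apply, normSq_eq_norm_sq, hd, one_pow]

theorem on_line {d x w : ℂ} (hd : ‖d‖ = 1) (h : hh d w = hh d x) : ∃ t : ℝ, w = x + t * d := by
  refine ⟨d.re * (w - x).re + d.im * (w - x).im, ?_⟩
  simp only [hh_apply] at h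
  apply Complex.ext <;> simp
  · linear_combination (x.re - w.re) * unit hd - d.im * h
  · linear_combination (x.im - w.im) * unit hd + d.re * h

theorem hh_line (d x : ℂ) (t : ℝ) : hh d (x + t * d) = hh d x := by simp [hh_apply]; ring

theorem tend (x : ℂ) : Tendsto (fun t : ℝ => t • x) (𝓝 1) (𝓝 x) :=
  (show Continuous fun t : ℝ => t • x by fun_prop).tendsto' 1 x (by simp)

theorem Setup.supp (H : Setup S E) {p d : ℂ} (hd : ‖d‖ = 1) (hr : Reg S p d)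
    (hp : p ∈ closure (Cn S)) (h0 : 0 < hh d p) {y : ℂ} (hy : y ∈ closure (Cn S)) :
    hh d y ≤ hh d p := by
  refine closure_minimal (fun y hy => not_lt.1 fun h => ?_)
    (isClosed_le (hh d).continuous continuous_const) hy
  have := H.sup (hh d) hy h (mem_closure_of_tendsto ((tend p).mono_left
    (nhdsWithin_le_nhds (s := Iio 1))) (by
      filter_upwards [Ioo_mem_nhdsLT zero_lt_one] with t ht
      exact ⟨H.clo hp ht.1.le ht.2, by simp only [mem_setOf, map_smul, smul_eq_mul]; nlinarith [ht.2]⟩))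
  obtain ⟨ε, hε, hr⟩ := hr
  obtain ⟨w, hw, h1, h2⟩ := mem_closure_iff_nhds.1 this _ (ball_mem_nhds p hε)
  exact Cn.notMem h1 ((hr w (mem_ball_iff_norm.1 hw)).2 (on_line hd h2))

def V (S : Set ℂ) (E : Fin n → Set ℂ) (x d : ℂ) (j : Fin n) : Prop :=
  x ∈ closure (Cn S) ∧ Reg S x d ∧ 0 < hh d x ∧ ∀ᶠ t : ℝ in 𝓝[>] 1, t • x ∈ E j

theorem Setup.half (H : Setup S E) {x d : ℂ} (hr : Reg S x d) (h0 : 0 < hh d x) :
    ∃ P Q : Set ℂ, IsPreconnected Q ∧ Q ⊆ Sᶜ ∧ ∀ᶠ s : ℝ in 𝓝 0,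
      (∀ᶠ t : ℝ in 𝓝[>] 1, t • (x + s * d) ∈ Q) ∧
      ∀ j, V S E (x + s * d) d j ↔ P ⊆ Cn S ∧ Q ⊆ E j := by
  obtain ⟨ε, hε, hr⟩ := hr
  have c1 : Convex ℝ (ball x ε ∩ {z | hh d z < hh d x}) :=
    (convex_ball x ε).inter (convex_halfSpace_lt (hh d).isLinear _)
  have c2 : Convex ℝ (ball x ε ∩ {z | hh d x < hh d z}) :=
    (convex_ball x ε).inter (convex_halfSpace_gt (hh d).isLinear _)
  have f : ∀ z ∈ ball x ε, hh d z ≠ hh d x → z ∈ Sᶜ := fun z hz h hS => by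
    obtain ⟨t, rfl⟩ := (hr z (mem_ball_iff_norm.1 hz)).1 hS
    exact h (hh_line ..)
  have f1 : ball x ε ∩ {z | hh d z < hh d x} ⊆ Sᶜ := fun z hz => f z hz.1 (ne_of_lt hz.2)
  have f2 : ball x ε ∩ {z | hh d x < hh d z} ⊆ Sᶜ := fun z hz => f z hz.1 (ne_of_gt hz.2)
  refine ⟨ball x ε ∩ {z | hh d z < hh d x}, _, c2.isPreconnected, f2, ?_⟩
  filter_upwards [small x d hε] with s hs
  have hb := (tend (x + s * d)).eventually (isOpen_ball.mem_nhds (mem_ball_iff_norm.2 hs))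
  have e1 : ∀ᶠ t : ℝ in 𝓝[<] 1, t • (x + s * d) ∈ ball x ε ∩ {z | hh d z < hh d x} := by
    filter_upwards [nhdsWithin_le_nhds hb, self_mem_nhdsWithin] with t h1 h2
    exact ⟨h1, by simp only [mem_setOf, map_smul, smul_eq_mul, hh_line]; nlinarith [mem_Iio.1 h2]⟩
  have e2 : ∀ᶠ t : ℝ in 𝓝[>] 1, t • (x + s * d) ∈ ball x ε ∩ {z | hh d x < hh d z} := by
    filter_upwards [nhdsWithin_le_nhds hb, self_mem_nhdsWithin] with t h1 h2
    exact ⟨h1, by simp only [mem_setOf, map_smul, smul_eq_mul, hh_line]; nlinarith [mem_Ioi.1 h2]⟩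
  refine ⟨e2, fun j => ⟨fun ⟨v1, _, _, v4⟩ => ⟨?_, ?_⟩, fun ⟨v1, v2⟩ => ⟨?_, ?_, ?_, ?_⟩⟩⟩
  · obtain ⟨t, h1, h2⟩ := (e1.and (Ioo_mem_nhdsLT zero_lt_one)).exists
    exact H.subC c1.isPreconnected f1 ⟨_, h1, H.clo v1 h2.1.le h2.2⟩
  · obtain ⟨t, h1, h2⟩ := (e2.and v4).exists
    exact H.subE c2.isPreconnected f2 ⟨_, h1, h2⟩
  · exact mem_closure_of_tendsto ((tend _).mono_left nhdsWithin_le_nhds) (e1.mono fun t h => v1 h)
  · refine ⟨ε - ‖x + s * d - x‖, by linarith, fun z hz => (hr z ?_).trans ⟨?_, ?_⟩⟩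
    · linarith [norm_sub_le_norm_sub_add_norm_sub z (x + s * d) x]
    · exact fun ⟨t, ht⟩ => ⟨t - s, by rw [ht]; push_cast; ring⟩
    · exact fun ⟨t, ht⟩ => ⟨t + s, by rw [ht]; push_cast; ring⟩
  · rwa [hh_line]
  · exact e2.mono fun t h => v2 h

theorem Setup.loc (H : Setup S E) {x d : ℂ} (hr : Reg S x d) (h0 : 0 < hh d x) (j : Fin n) :
    ∀ᶠ s : ℝ in 𝓝 0, V S E (x + s * d) d j ↔ V S E x d j := by
  obtain ⟨P, Q, -, -, h⟩ := H.half hr h0
  have h1 := h.self_of_nhds.2 j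
  simp only [ofReal_zero, zero_mul, add_zero] at h1
  exact h.mono fun s hs => (hs.2 j).trans h1.symm

theorem Reg.mem {x d : ℂ} (h : Reg S x d) : x ∈ S := by simpa using h.ev.self_of_nhds

theorem Setup.walk (H : Setup S E) {p d : ℂ} {j : Fin n} (hd : ‖d‖ = 1) (hv : V S E p d j) {σ : ℝ}
    (hσ : σ * σ = 1) : (∀ s : ℝ, 0 ≤ s → V S E (p + (σ * s : ℝ) * d) d j) ∨
      ∃ r : ℝ, 0 < r ∧ (∀ s : ℝ, 0 ≤ s → s < r → V S E (p + (σ * s : ℝ) * d) d j) ∧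
        Tri S (p + (σ * r : ℝ) * d) (-σ * d) := by
  by_cases hA : ∀ s : ℝ, 0 ≤ s → V S E (p + (σ * s : ℝ) * d) d j
  · exact Or.inl hA
  right
  set A := {s : ℝ | 0 ≤ s ∧ ¬V S E (p + (σ * s : ℝ) * d) d j}
  have hne : A.Nonempty := by push Not at hA; exact hA
  have hb : BddBelow A := ⟨0, fun s hs => hs.1⟩
  set r := sInf A
  have hr0 : 0 ≤ r := le_csInf hne fun s hs => hs.1
  have hlt : ∀ s : ℝ, 0 ≤ s → s < r → V S E (p + (σ * s : ℝ) * d) d j := fun s h0 h1 => by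
    by_contra h; exact absurd (csInf_le hb ⟨h0, h⟩) (not_le.2 h1)
  have hev : Reg S (p + (σ * r : ℝ) * d) d → ∀ᶠ s : ℝ in 𝓝 r,
      V S E (p + (σ * s : ℝ) * d) d j ↔ V S E (p + (σ * r : ℝ) * d) d j := fun h => by
    have := ((show Continuous fun s : ℝ => σ * (s - r) by fun_prop).tendsto' r 0
      (by simp)).eventually (H.loc h (by rw [hh_line]; exact hv.2.2.1) j)
    refine this.mono fun s hs => ?_
    rwa [show p + (σ * r : ℝ) * d + (σ * (s - r) : ℝ) * d = p + (σ * s : ℝ) * d by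
      push_cast; ring] at hs
  have hnot : ¬V S E (p + (σ * r : ℝ) * d) d j := fun h => by
    obtain ⟨s, h1, h2⟩ := mem_closure_iff_nhds.1 (csInf_mem_closure hne hb) _ (hev h.2.1)
    exact h2.2 (h1.2 h)
  have hr : 0 < r := lt_of_le_of_ne hr0 fun h => hnot (by simpa [← h] using hv)
  have ht : Tendsto (fun s : ℝ => p + (σ * s : ℝ) * d) (𝓝[<] r) (𝓝 (p + (σ * r : ℝ) * d)) :=
    ((show Continuous fun s : ℝ => p + (σ * s : ℝ) * d by fun_prop).tendsto r).mono_left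
      nhdsWithin_le_nhds
  have e1 : ∀ᶠ s in 𝓝[<] r, s < r ∧ V S E (p + (σ * s : ℝ) * d) d j := by
    filter_upwards [Ioo_mem_nhdsLT hr] with s hs using ⟨hs.2, hlt s hs.1.le hs.2⟩
  have hS : p + (σ * r : ℝ) * d ∈ S := H.cl.mem_of_tendsto ht (e1.mono fun s h => h.2.2.1.mem)
  have hσ1 : |σ| = 1 := by nlinarith [abs_nonneg σ, abs_mul_abs_self σ]
  have key : ∀ (s t : ℝ) (w : ℂ), s < r → ‖w‖ = 1 →
      p + (σ * s : ℝ) * d = p + (σ * r : ℝ) * d + t * w → |t| = r - s ∧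
        (t : ℂ) * w = ((r - s : ℝ) : ℂ) * (-σ * d) := fun s t w h1 h2 h3 => by
    have h4 : (t : ℂ) * w = ((r - s : ℝ) : ℂ) * (-σ * d) := by
      push_cast at h3 ⊢; linear_combination -h3
    refine ⟨?_, h4⟩
    have := congrArg norm h4
    simpa only [norm_mul, h2, hd, norm_real, norm_neg, Real.norm_eq_abs, hσ1, mul_one,
      abs_of_pos (sub_pos.2 h1)] using this
  refine ⟨r, hr, hlt, ?_⟩
  obtain ⟨d', hd', ⟨ε, hε, h⟩ | ⟨ε, hε, h⟩⟩ := H.net.ls hS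
  · exfalso
    obtain ⟨s, ⟨h1, h2⟩, h3⟩ := (e1.and (ht.eventually (ball_mem_nhds _ hε))).exists
    obtain ⟨t, h4⟩ := (h _ (mem_ball_iff_norm.1 h3)).1 h2.2.1.mem
    obtain ⟨h5, h6⟩ := key s t d' h1 hd' h4
    have h7 : Reg S (p + (σ * r : ℝ) * d) d := by
      have hrs : ((r - s : ℝ) : ℂ) ≠ 0 := ofReal_ne_zero.2 (by linarith)
      have ht0 : (t : ℂ) ≠ 0 := ofReal_ne_zero.2 (abs_pos.1 (by linarith))
      have hσ' : (σ : ℂ) * σ = 1 := by exact_mod_cast hσ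
      refine ⟨ε, hε, fun z hz => (h z hz).trans ⟨fun ⟨u, hu⟩ => ⟨u / t * ((r - s) * -σ), ?_⟩,
        fun ⟨u, hu⟩ => ⟨u * (-σ * t / (r - s)), ?_⟩⟩⟩
      · rw [hu]; push_cast at h6 ⊢; field_simp; linear_combination u * h6
      · rw [hu]; push_cast at h6 hrs ⊢; field_simp
        linear_combination u * σ * h6 - u * (r - s) * d * hσ'
    obtain ⟨s, h8, h9⟩ := (e1.and (nhdsWithin_le_nhds (hev h7))).exists
    exact hnot (h9.1 h8.2)
  · obtain ⟨s, ⟨h1, h2⟩, h3⟩ := (e1.and (ht.eventually (ball_mem_nhds _ hε))).exists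
    obtain ⟨t, ht0, w, hw, h4⟩ := (h _ (mem_ball_iff_norm.1 h3)).1 h2.2.1.mem
    obtain ⟨h5, h6⟩ := key s t _ h1 (by rw [norm_mul, norm_cube hw, hd', one_mul]) h4
    rw [abs_of_nonneg ht0] at h5
    rw [h5] at h6
    have h7 := mul_left_cancel₀ (ofReal_ne_zero.2 (by linarith)) h6
    refine ⟨ε, hε, fun z hz => (h z hz).trans ⟨fun ⟨u, hu, v, hv, e⟩ => ⟨u, hu, v * w ^ 2, ?_, ?_⟩,
      fun ⟨u, hu, v, hv, e⟩ => ⟨u, hu, v * w, ?_, ?_⟩⟩⟩
    · rw [mul_pow, hv, ← pow_mul, mul_comm 2, pow_mul, hw]; simp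
    · rw [e, ← h7]; linear_combination (-u * v * d') * hw
    · rw [mul_pow, hv, hw, one_mul]
    · rw [e, ← h7]; ring

end Pool.Agent.H.MP_3699be_gt
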