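import Pool.Agent.H.MP_3699be_gt.B

namespace Pool.Agent.H.MP_3699be_gt

open Set Filter Topology Complex Metric

variable {n : ℕ} {S : Set ℂ} {E : Fin n → Set ℂ}

noncomputable def ip (d : ℂ) : ℂ →L[ℝ] ℝ := d.re • reCLM + d.im • imCLM

theorem ip_apply (d z : ℂ) : ip d z = d.re * z.re + d.im * z.im := by simp [ip]

theorem Setup.cone (H : Setup S E) {p d : ℂ} {j : Fin n} (hd : ‖d‖ = 1) {σ r : ℝ}
    (hσ : σ * σ = 1) (hr : 0 < r) (hv : ∀ s : ℝ, 0 ≤ s → s < r → V S E (p + (σ * s : ℝ) * d) d j)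
    (ht : Tri S (p + (σ * r : ℝ) * d) (-σ * d)) : p + (σ * r : ℝ) * d ∈ closure (Cn S) ∧
      ∀ y ∈ closure (Cn S), √3 * σ * ip d (y - (p + (σ * r : ℝ) * d)) +
        hh d (y - (p + (σ * r : ℝ) * d)) ≤ 0 := by
  have h3 : 0 < √3 := by positivity
  have hp : V S E p d j := by simpa using hv 0 le_rfl hr
  have hT : Tendsto (fun s : ℝ => p + (σ * s : ℝ) * d) (𝓝[<] r) (𝓝 (p + (σ * r : ℝ) * d)) :=
    ((show Continuous fun s : ℝ => p + (σ * s : ℝ) * d by fun_prop).tendsto r).mono_left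
      nhdsWithin_le_nhds
  set k : ℂ →L[ℝ] ℝ := (√3 * σ) • ip d + hh d
  have hk : ∀ z, k z = √3 * σ * ip d z + hh d z := fun z => rfl
  have hx : p + (σ * r : ℝ) * d ∈ closure (Cn S ∩ {a | k a ≤ k (p + (σ * r : ℝ) * d)}) := by
    refine isClosed_closure.mem_of_tendsto hT ?_
    filter_upwards [Ioo_mem_nhdsLT hr] with s hs
    refine closure_mono (s := {a | k a < k (p + (σ * r : ℝ) * d)} ∩ Cn S)
      (fun z hz => And.intro hz.2 (le_of_lt hz.1 : k z ≤ _))
      ((isOpen_lt k.continuous continuous_const).inter_closure ⟨?_, (hv s hs.1.le hs.2).1⟩)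
    have : k (p + (σ * r : ℝ) * d) - k (p + (σ * s : ℝ) * d) = √3 * (r - s) := by
      simp only [hk, hh_line, ip_apply, add_re, add_im, re_ofReal_mul, im_ofReal_mul]
      linear_combination √3 * (r - s) * (σ * σ) * unit hd + √3 * (r - s) * hσ
    have := mul_pos h3 (sub_pos.2 hs.2)
    simp only [mem_setOf]; linarith
  refine ⟨closure_mono inter_subset_left hx, fun y hy => ?_⟩
  rw [← hk, map_sub, sub_nonpos]
  refine closure_minimal (fun y hy => not_lt.1 fun h => ?_)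
    (isClosed_le k.continuous continuous_const) hy
  obtain ⟨ε, hε, ht⟩ := ht
  obtain ⟨w, hw, h1, h2⟩ := mem_closure_iff_nhds.1 (H.sup k hy h hx) _ (ball_mem_nhds _ hε)
  have h4 := H.supp hd hp.2.1 hp.1 hp.2.2.1 (subset_closure h1)
  rw [← hh_line d p (σ * r)] at h4
  generalize p + (σ * r : ℝ) * d = x at *
  have h2 : √3 * σ * ip d w + hh d w = √3 * σ * ip d x + hh d x := h2
  refine Cn.notMem h1 ((ht w (mem_ball_iff_norm.1 hw)).2
    ⟨2 * σ * (ip d w - ip d x), ?_, om σ, om_cube hσ, ?_⟩)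
  · nlinarith
  · simp only [ip_apply, hh_apply] at h2 ⊢
    have u := unit hd
    apply Complex.ext <;> simp [om]
    · linear_combination (x.re - w.re) * u - d.im * h2 -
        (d.re * w.re + d.im * w.im - (d.re * x.re + d.im * x.im)) * (d.re + σ * √3 * d.im) * hσ
    · linear_combination (x.im - w.im) * u + d.re * h2 -
        (d.re * w.re + d.im * w.im - (d.re * x.re + d.im * x.im)) * (d.im - σ * √3 * d.re) * hσ

theorem Setup.lab (H : Setup S E) {x d : ℂ} {i j : Fin n} (h1 : V S E x d i) (h2 : V S E x d j) :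
    i = j := by
  obtain ⟨t, a, b⟩ := (h1.2.2.2.and h2.2.2.2).exists
  by_contra h
  exact disjoint_left.1 (H.disj i j h) a b

theorem Setup.same (H : Setup S E) {p q d e : ℂ} {i j : Fin n} (hd : ‖d‖ = 1) (he : ‖e‖ = 1)
    (hp : V S E p d i) (hq : V S E q e j) (hde : 1 / 2 < ip d e) : i = j := by
  have ud := unit hd
  have ue := unit he
  have sp := fun y hy => H.supp hd hp.2.1 hp.1 hp.2.2.1 (y := y) hy
  have sq := fun y hy => H.supp he hq.2.1 hq.1 hq.2.2.1 (y := y) hy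
  have h3 : 0 < √3 := by positivity
  have hq' : ∀ᶠ s : ℝ in 𝓝 0, q + s * e ∈ closure (Cn S) :=
    (H.loc hq.2.1 hq.2.2.1 j).mono fun s hs => (hs.2 hq).1
  by_cases hA : hh e d = 0
  · obtain rfl : e = d := by
      simp only [hh_apply, ip_apply] at hA hde
      have h1 : (d.re * e.re + d.im * e.im) ^ 2 = 1 := by
        linear_combination (e.re * e.re + e.im * e.im) * ud + ue - (e.re * d.im - e.im * d.re) * hA
      have h2 : d.re * e.re + d.im * e.im = 1 := by nlinarith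
      apply Complex.ext
      · linear_combination (-e.re) * ud + d.re * h2 + d.im * hA
      · linear_combination (-e.im) * ud + d.im * h2 - d.re * hA
    obtain ⟨t, rfl⟩ := on_line hd (le_antisymm (sp q hq.1) (sq p hp.1))
    obtain ⟨σ, hσ, ht⟩ : ∃ σ : ℝ, σ * σ = 1 ∧ σ * |t| = t := by
      rcases le_total 0 t with h | h
      exacts [⟨1, by simp, by simp [abs_of_nonneg h]⟩, ⟨-1, by simp, by simp [abs_of_nonpos h]⟩]
    rcases H.walk hd hp hσ with h | ⟨r, hr, h1, h2⟩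
    · exact H.lab (by simpa only [ht] using h |t| (abs_nonneg t)) hq
    rcases lt_or_ge |t| r with h | h
    · exact H.lab (by simpa only [ht] using h1 |t| (abs_nonneg t) h) hq
    obtain ⟨s, a, b⟩ := (((((show Continuous fun s : ℝ => σ * s by fun_prop).tendsto' 0 0
      (by simp)).eventually hq').filter_mono (nhdsWithin_le_nhds (s := Ioi 0))).and
      self_mem_nhdsWithin).exists
    have := (H.cone hd hσ hr h1 h2).2 _ a
    have b : 0 < s := b
    have h5 : √3 * σ * ip e (p + t * e + (σ * s : ℝ) * e - (p + (σ * r : ℝ) * e)) +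
        hh e (p + t * e + (σ * s : ℝ) * e - (p + (σ * r : ℝ) * e)) = √3 * (|t| + s - r) := by
      simp only [hh_apply, ip_apply, add_re, add_im, sub_re, sub_im, re_ofReal_mul, im_ofReal_mul]
      linear_combination √3 * σ * (t + σ * s - σ * r) * ud - √3 * σ * ht + √3 * (|t| + s - r) * hσ
    nlinarith
  exfalso
  obtain ⟨σ, hσ, hA⟩ : ∃ σ : ℝ, σ * σ = 1 ∧ 0 < σ * hh e d := by
    rcases lt_or_gt_of_ne hA with h | h
    exacts [⟨-1, by simp, by simpa⟩, ⟨1, by simp, by simpa⟩]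
  rcases H.walk hd hp hσ with h | ⟨r, hr, h1, h2⟩
  · have := sq _ (h ((|hh e q - hh e p| + 1) / (σ * hh e d)) (by positivity)).1
    rw [map_add, ← real_smul, map_smul, smul_eq_mul, mul_right_comm,
      mul_div_cancel₀ _ hA.ne'] at this
    linarith [le_abs_self (hh e q - hh e p)]
  obtain ⟨hx, hc⟩ := H.cone hd hσ hr h1 h2
  have hx' := sq _ hx
  have key : ∀ s : ℝ, q + s * e ∈ closure (Cn S) → q + s * e = p + (σ * r : ℝ) * d := by
    intro s hs
    have a1 := hc _ hs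
    have a2 := sp _ hs
    rw [← hh_line d p (σ * r), ← sub_nonpos, ← map_sub] at a2
    rw [← hh_line e q s, ← sub_nonneg, ← map_sub] at hx'
    rw [← sub_eq_zero]
    generalize q + s * e - (p + (σ * r : ℝ) * d) = z at *
    have e1 : hh e z = σ * ip d z * (σ * hh e d) + hh d z * ip d e := by
      simp only [hh_apply, ip_apply]
      linear_combination (e.im * z.re - e.re * z.im) * ud -
        (d.re * z.re + d.im * z.im) * (e.re * d.im - e.im * d.re) * hσ
    have e2 : (σ * hh e d) ^ 2 + ip d e ^ 2 = 1 := by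
      simp only [hh_apply, ip_apply]
      linear_combination (e.re * e.re + e.im * e.im) * ud + ue + (e.re * d.im - e.im * d.re) ^ 2 * hσ
    have e3 : σ * hh e d < √3 * ip d e := by
      refine lt_of_pow_lt_pow_left₀ 2 (by positivity) ?_
      rw [mul_pow √3, Real.sq_sqrt (by norm_num)]; nlinarith
    have e4 : hh d z = 0 := by
      refine le_antisymm a2 (not_lt.1 fun h => ?_)
      nlinarith [mul_le_mul_of_nonneg_right a1 hA.le, mul_pos (neg_pos.2 h) (sub_pos.2 e3),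
        mul_nonneg h3.le hx']
    have e5 : σ * ip d z = 0 := by
      rw [e4] at a1 e1
      refine le_antisymm (by nlinarith) (not_lt.1 fun h => ?_)
      nlinarith [mul_pos (neg_pos.2 h) hA]
    have e6 : ip d z = 0 := by linear_combination σ * e5 - ip d z * hσ
    simp only [hh_apply, ip_apply] at e4 e6
    apply Complex.ext <;> simp only [zero_re, zero_im]
    · linear_combination (-z.re) * ud + d.re * e6 - d.im * e4
    · linear_combination (-z.im) * ud + d.im * e6 + d.re * e4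
  obtain ⟨s, a, b⟩ := ((hq'.filter_mono (nhdsWithin_le_nhds (s := Ioi 0))).and
    self_mem_nhdsWithin).exists
  have := (key s a).trans (key 0 hq'.self_of_nhds).symm
  simp only [ofReal_zero, zero_mul, add_zero, add_eq_left, mul_eq_zero, ofReal_eq_zero] at this
  rcases this with h | h
  · exact (ne_of_gt b) h
  · simp [h] at he

open Classical in
theorem Setup.card (H : Setup S E) :
    (Finset.univ.filter fun j => ∃ p d, ‖d‖ = 1 ∧ V S E p d j).card ≤ 16 := by
  have : ∀ j : Fin n, ∃ d : ℂ, (∃ p d, ‖d‖ = 1 ∧ V S E p d j) → ‖d‖ = 1 ∧ ∃ p, V S E p d j := by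
    intro j
    by_cases h : ∃ p d, ‖d‖ = 1 ∧ V S E p d j
    · obtain ⟨p, d, h1, h2⟩ := h
      exact ⟨d, fun _ => ⟨h1, p, h2⟩⟩
    · exact ⟨0, fun h' => absurd h' h⟩
  choose d hd using this
  have fl : ∀ x : ℝ, |x| ≤ 1 → ⌊3 / 2 * x⌋ ∈ Finset.Icc (-2 : ℤ) 1 := fun x hx => by
    rw [Finset.mem_Icc, Int.le_floor, ← Int.lt_add_one_iff, Int.floor_lt]
    constructor <;> push_cast <;> linarith [abs_le.1 hx]
  refine (Finset.card_le_card_of_injOn (t := Finset.Icc (-2 : ℤ) 1 ×ˢ Finset.Icc (-2 : ℤ) 1)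
    (fun j => (⌊3 / 2 * (d j).re⌋, ⌊3 / 2 * (d j).im⌋)) (fun j hj => ?_)
    fun i hi j hj h => ?_).trans (by simp)
  · have := (hd j (Finset.mem_filter.1 hj).2).1
    exact Finset.mem_product.2 ⟨fl _ (this ▸ abs_re_le_norm _), fl _ (this ▸ abs_im_le_norm _)⟩
  · obtain ⟨h1, p, h2⟩ := hd i (Finset.mem_filter.1 hi).2
    obtain ⟨h3, q, h4⟩ := hd j (Finset.mem_filter.1 hj).2
    refine H.same h1 h3 h2 h4 ?_
    have a := abs_lt.1 (Int.abs_sub_lt_one_of_floor_eq_floor (Prod.ext_iff.1 h).1)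
    have b := abs_lt.1 (Int.abs_sub_lt_one_of_floor_eq_floor (Prod.ext_iff.1 h).2)
    rw [ip_apply]
    nlinarith [unit h1, unit h3, mul_pos (sub_pos.2 a.1) (sub_pos.2 a.2),
      mul_pos (sub_pos.2 b.1) (sub_pos.2 b.2)]

theorem tri_countable (S : Set ℂ) : {x | ∃ d, ‖d‖ = 1 ∧ Tri S x d}.Countable := by
  have : DiscreteTopology {x | ∃ d, ‖d‖ = 1 ∧ Tri S x d} := by
    refine discreteTopology_subtype_iff.2 fun x ⟨d, hd, ε, hε, h⟩ => ?_
    rw [inf_principal_eq_bot]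
    filter_upwards [nhdsWithin_le_nhds (ball_mem_nhds x hε), self_mem_nhdsWithin]
      with y hy hyx ⟨e, he, hT⟩
    have key : ∀ w : ℂ, w ^ 3 = 1 → ((y - x) ^ 2 * e / d ^ 3 * w).im = 0 := fun w hw => by
      have hd0 : d ≠ 0 := by rintro rfl; simp at hd
      have h1 : ∀ᶠ t : ℝ in 𝓝[>] 0, ((y - x + t * (w * e)) ^ 3 / d ^ 3).im = 0 := by
        have h2 : ∀ᶠ t : ℝ in 𝓝 0, y + t * (w * e) ∈ ball x ε :=
          ((show Continuous fun t : ℝ => y + t * (w * e) by fun_prop).tendsto' 0 y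
            (by simp)).eventually (isOpen_ball.mem_nhds hy)
        filter_upwards [hT.ev hw, nhdsWithin_le_nhds h2] with t a b
        obtain ⟨u, -, v, hv, h3⟩ := (h _ (mem_ball_iff_norm.1 b)).1 a
        rw [show y - x + t * (w * e) = u * (v * d) by linear_combination h3, mul_pow, mul_pow, hv,
          one_mul, mul_div_cancel_right₀ _ (pow_ne_zero 3 hd0), ← ofReal_pow, ofReal_im]
      have h4 : HasDerivAt (fun t : ℝ => ((y - x + t * (w * e)) ^ 3 / d ^ 3).im)
          (3 * ((y - x) ^ 2 * e / d ^ 3 * w).im) 0 := by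
        have := ((((hasDerivAt_id (0 : ℝ)).ofReal_comp.mul_const (w * e)).const_add
          (y - x)).pow 3).div_const (d ^ 3)
        refine (imCLM.hasFDerivAt.comp_hasDerivAt (0 : ℝ) this).congr_deriv ?_
        rw [imCLM_apply, ← im_ofReal_mul]
        congr 1
        simp
        ring
      have h5 := h4.hasDerivWithinAt (s := Ioi 0)
      have h6 : ((y - x + ((0 : ℝ) : ℂ) * (w * e)) ^ 3 / d ^ 3).im = 0 :=
        tendsto_nhds_unique (h4.continuousAt.tendsto.mono_left nhdsWithin_le_nhds)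
          (tendsto_const_nhds.congr' (h1.mono fun t ht => ht.symm))
      have h7 := (uniqueDiffWithinAt_Ioi (0 : ℝ)).eq_deriv _ h5
        ((hasDerivWithinAt_const (0 : ℝ) (Ioi 0) (0 : ℝ)).congr_of_eventuallyEq h1 h6)
      linarith
    have k1 := key 1 (by simp)
    have k2 := key _ (om_cube (s := 1) (by simp))
    have : (y - x) ^ 2 * e / d ^ 3 = 0 := by
      generalize (y - x) ^ 2 * e / d ^ 3 = c at *
      rw [mul_one] at k1
      apply Complex.ext _ k1
      simpa [om, k1] using k2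
    have := congrArg norm this
    simp only [norm_div, norm_mul, norm_pow, he, hd, one_pow, div_one, mul_one, norm_zero,
      pow_eq_zero_iff two_ne_zero, norm_eq_zero, sub_eq_zero] at this
    exact hyx this
  exact countable_coe_iff.1 (TopologicalSpace.separableSpace_iff_countable.1 inferInstance)

/-- The shadow of a set seen from the origin. -/
def Sh (T : Set ℂ) : Set ℂ := {x | ∃ y ∈ T, ∃ t : ℝ, 1 < t ∧ x = t • y}

theorem Setup.first (H : Setup S E) {x : ℂ} (hx : x ∉ S) (hC : x ∉ Cn S) :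
    ∃ t : ℝ, 0 < t ∧ t < 1 ∧ t • x ∈ S ∧ t • x ∈ closure (Cn S) := by
  have hc : Continuous fun t : ℝ => t • x := by fun_prop
  obtain ⟨t, ⟨ht, hS⟩, hm⟩ := (isCompact_Icc.inter_right (H.cl.preimage hc)).exists_isLeast
    (show (Icc (0 : ℝ) 1 ∩ (fun t : ℝ => t • x) ⁻¹' S).Nonempty by
      by_contra h
      exact hC fun t ht hS => h ⟨t, ht, hS⟩)
  have h0 : 0 < t := lt_of_le_of_ne ht.1 fun h => H.zero (by simpa [← h] using hS)
  refine ⟨t, h0, lt_of_le_of_ne ht.2 fun h => hx (by simpa [h] using hS), hS, ?_⟩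
  refine mem_closure_of_tendsto ((hc.tendsto t).mono_left (nhdsWithin_le_nhds (s := Iio t))) ?_
  filter_upwards [Ioo_mem_nhdsLT h0] with s hs u hu h
  rw [smul_smul] at h
  have := hm ⟨⟨mul_nonneg hu.1 hs.1.le, by nlinarith [hu.1, hu.2, hs.1, hs.2, ht.2]⟩, h⟩
  nlinarith [hu.1, hu.2, hs.1, hs.2]

theorem mem_sh {T : Set ℂ} {x : ℂ} {t : ℝ} (h0 : 0 < t) (h1 : t < 1) (h : t • x ∈ T) : x ∈ Sh T :=
  ⟨_, h, t⁻¹, (one_lt_inv₀ h0).2 h1, by rw [smul_smul, inv_mul_cancel₀ h0.ne', one_smul]⟩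

theorem Setup.cover (H : Setup S E) {i j : Fin n} (hi : (0 : ℂ) ∈ E i) (hj : j ≠ i) {x : ℂ}
    (hx : x ∈ E j) : x ∈ Sh (S ∩ closure (Cn S)) ∧ ((¬∃ p d, ‖d‖ = 1 ∧ V S E p d j) →
      x ∈ Sh (S \ closure (Cn S)) ∪ Sh {x | ∃ d, ‖d‖ = 1 ∧ Tri S x d}) := by
  have hS : x ∈ Sᶜ := H.cov ▸ mem_iUnion.2 ⟨j, hx⟩
  have hC : x ∉ Cn S := fun h => disjoint_left.1 (H.disj j i hj) hx
    (H.subE (Cn.convex H.net H.cl).isPreconnected (fun _ => Cn.notMem) ⟨0, H.zero_mem, hi⟩ h)
  obtain ⟨t, h0, h1, h2, h3⟩ := H.first hS hC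
  refine ⟨mem_sh h0 h1 ⟨h2, h3⟩, fun hV => ?_⟩
  obtain ⟨d, hd, hr | hr⟩ := H.net.ls h2
  swap
  · exact Or.inr (mem_sh h0 h1 ⟨d, hd, hr⟩)
  left
  have hne : hh d (t • x) ≠ 0 := fun h => by
    obtain ⟨ε, hε, hr⟩ := hr
    obtain ⟨s, a, b⟩ := ((((tend (t • x)).eventually (ball_mem_nhds _ hε)).filter_mono
      (nhdsWithin_le_nhds (s := Iio 1))).and (Ioo_mem_nhdsLT zero_lt_one)).exists
    exact Cn.notMem (H.clo h3 b.1.le b.2) ((hr _ (mem_ball_iff_norm.1 a)).2
      (on_line hd (by rw [map_smul, h, smul_zero])))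
  obtain ⟨d, hd, hr, hp⟩ : ∃ d, ‖d‖ = 1 ∧ Reg S (t • x) d ∧ 0 < hh d (t • x) := by
    rcases lt_or_gt_of_ne hne with h | h
    · exact ⟨-d, by simpa, hr.neg, by simp only [hh_apply, neg_re, neg_im] at h ⊢; linarith⟩
    · exact ⟨d, hd, hr, h⟩
  obtain ⟨P, Q, q1, q2, q3⟩ := H.half hr hp
  have q4 := q3.self_of_nhds.1
  simp only [ofReal_zero, zero_mul, add_zero] at q4
  obtain ⟨s, a, b⟩ := (q4.and (Ioo_mem_nhdsGT ((one_lt_inv₀ h0).2 h1))).exists
  have hst : s * t < 1 := by have := b.2; rwa [inv_eq_one_div, lt_div_iff₀ h0] at this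
  by_contra hn
  have hc : Continuous fun u : ℝ => u • x := by fun_prop
  have : (fun u : ℝ => u • x) '' Icc (s * t) 1 ⊆ E j := by
    refine H.subE (isPreconnected_Icc.image _ hc.continuousOn) ?_
      ⟨x, ⟨1, ⟨hst.le, le_rfl⟩, one_smul ..⟩, hx⟩
    rintro _ ⟨u, hu, rfl⟩ hu'
    have hu0 : t < u := by nlinarith [hu.1, b.1]
    rcases hu.2.eq_or_lt with rfl | hu1
    · exact hS (by simpa using hu')
    refine hn (mem_sh (h0.trans hu0) hu1 ⟨hu', fun hcl => ?_⟩)
    have := H.supp hd hr h3 hp hcl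
    simp only [map_smul, smul_eq_mul] at this hp
    nlinarith [(mul_pos_iff_of_pos_left h0).1 hp]
  have hQ := H.subE q1 q2 ⟨_, a, this ⟨s * t, ⟨le_rfl, hst.le⟩, (smul_smul s t x).symm⟩⟩
  exact hV ⟨_, d, hd, h3, hr, hp, q4.mono fun u h => hQ h⟩

end Pool.Agent.H.MP_3699be_gt
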