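import Pool.Agent.H.MP_3699be_gt.C

namespace Pool.Agent.H.MP_3699be_gt

open Set Filter Topology Complex Metric MeasureTheory
open scoped ENNReal

noncomputable def g (r : ℝ) : ℝ := Real.exp (-r / 2) / (2 * Real.pi)

theorem g_pos (r : ℝ) : 0 < g r := by unfold g; positivity

theorem g_anti {r s : ℝ} (h : r ≤ s) : g s ≤ g r := by unfold g; gcongr

theorem dens_eq (z : ℂ) : dens z = ENNReal.ofReal (g (‖z‖ ^ 2)) := rfl

@[fun_prop] theorem dens_meas : Measurable dens := by unfold dens; fun_prop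

theorem len_line (p : ℂ) {d : ℂ} (hd : ‖d‖ = 1) {A : Set ℝ} (hA : MeasurableSet A) :
    len ((fun s : ℝ => p + s * d) '' A) = ∫⁻ s in A, dens (p + s * d) := by
  have hi : Isometry fun s : ℝ => p + s * d := Isometry.of_dist_eq fun a b => by
    rw [dist_eq_norm, show p + a * d - (p + b * d) = ((a - b : ℝ) : ℂ) * d by push_cast; ring,
      norm_mul, hd, norm_real, mul_one, dist_eq_norm]
  have hm := hi.isClosedEmbedding.measurableEmbedding
  have := setLIntegral_map (μ := Measure.hausdorffMeasure 1) (hm.measurableSet_image.2 hA) dens_meas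
    hm.measurable
  rw [hi.map_hausdorffMeasure (Or.inl zero_le_one), Measure.restrict_restrict
    (hm.measurableSet_image.2 hA), inter_eq_left.2 (image_subset_range ..),
    hi.injective.preimage_image, hausdorffMeasure_real] at this
  exact this

theorem radial {c : ℝ} (hc : 0 < c) :
    ∫⁻ t in Ioi (1 : ℝ), ENNReal.ofReal (t * g (t ^ 2 * c)) = ENNReal.ofReal (g c / c) := by
  have h1 : ∀ t ∈ Ici (1 : ℝ), HasDerivAt (fun t : ℝ => -g (t ^ 2 * c) / c) (t * g (t ^ 2 * c)) t :=
    fun t _ => by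
      unfold g
      refine ((((((hasDerivAt_pow 2 t).mul_const c).neg.div_const 2).exp.div_const
        (2 * Real.pi)).neg.div_const c).congr_deriv ?_)
      simp only [Pi.neg_apply]
      field_simp
      simp [mul_comm]
  have h2 : ∀ t ∈ Ioi (1 : ℝ), 0 ≤ t * g (t ^ 2 * c) := fun t ht =>
    mul_nonneg (by linarith [mem_Ioi.1 ht]) (g_pos _).le
  have h3 : Tendsto (fun t : ℝ => -g (t ^ 2 * c) / c) atTop (𝓝 0) := by
    have : Tendsto (fun t : ℝ => -(t ^ 2 * c) / 2) atTop atBot :=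
      (tendsto_neg_atTop_atBot.comp ((tendsto_pow_atTop two_ne_zero).atTop_mul_const
        hc)).atBot_div_const two_pos
    simpa [g] using ((Real.tendsto_exp_atBot.comp this).div_const (2 * Real.pi)).neg.div_const c
  rw [← ofReal_integral_eq_lintegral_ofReal (integrableOn_Ioi_deriv_of_nonneg' h1 h2 h3)
    ((ae_restrict_mem measurableSet_Ioi).mono h2), integral_Ioi_of_hasDerivAt_of_nonneg' h1 h2 h3]
  simp [neg_div]

theorem area_sh {p d : ℂ} (h : hh d p ≠ 0) {A : Set ℝ} (hA : MeasurableSet A) :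
    area (Sh ((fun s : ℝ => p + s * d) '' A)) =
      ∫⁻ s in A, ENNReal.ofReal (|hh d p| / ‖p + s * d‖ ^ 2) * dens (p + s * d) := by
  set B : Set ℂ := measurableEquivRealProd ⁻¹' (A ×ˢ Ioi 1)
  have hB : MeasurableSet B := measurableEquivRealProd.measurable (hA.prod measurableSet_Ioi)
  have e : Sh ((fun s : ℝ => p + s * d) '' A) = (fun z : ℂ => z.im • (p + z.re • d)) '' B := by
    ext x
    constructor
    · rintro ⟨_, ⟨s, hs, rfl⟩, t, ht, rfl⟩
      exact ⟨⟨s, t⟩, ⟨hs, ht⟩, by simp⟩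
    · rintro ⟨z, hz, rfl⟩
      exact ⟨_, ⟨z.re, hz.1, rfl⟩, z.im, hz.2, by simp⟩
  set T : ℂ → ℂ →L[ℝ] ℂ := fun z => z.im • reCLM.smulRight d + imCLM.smulRight (p + z.re • d)
    with hT
  have hd : ∀ z, HasFDerivAt (fun z : ℂ => z.im • (p + z.re • d)) (T z) z := fun z =>
    imCLM.hasFDerivAt.smul ((reCLM.hasFDerivAt.smul_const d).const_add p)
  have hdet : ∀ z, (T z).det = z.im * hh d p := fun z => by
    rw [ContinuousLinearMap.det, ← LinearMap.det_toMatrix basisOneI, Matrix.det_fin_two]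
    simp [LinearMap.toMatrix_apply, hT, hh_apply]
    ring
  have hinj : InjOn (fun z : ℂ => z.im • (p + z.re • d)) B := fun z hz w _ hzw => by
    have h1 := congrArg (hh d) hzw
    simp only [map_smul] at h1
    simp only [real_smul, hh_line, smul_eq_mul] at h1
    have h2 := mul_right_cancel₀ h h1
    have h3 : z.im ≠ 0 := by have : 1 < z.im := hz.2; linarith
    simp only [← h2] at hzw
    have h4 := add_left_cancel (smul_right_injective ℂ h3 hzw)
    have hd0 : d ≠ 0 := by rintro rfl; simp [hh_apply] at h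
    exact Complex.ext (smul_left_injective ℝ hd0 h4) h2
  rw [e, area, lintegral_image_eq_lintegral_abs_det_fderiv_mul volume hB
    (fun z _ => (hd z).hasFDerivWithinAt) hinj]
  simp only [hdet]
  have := volume_preserving_equiv_real_prod.setLIntegral_comp_preimage_emb
    measurableEquivRealProd.measurableEmbedding
    (fun q : ℝ × ℝ => ENNReal.ofReal |q.2 * hh d p| * dens (q.2 • (p + q.1 • d))) (A ×ˢ Ioi 1)
  refine this.trans ?_
  rw [Measure.volume_eq_prod, setLIntegral_prod _ (Measurable.aemeasurable (by fun_prop))]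
  refine lintegral_congr fun s => ?_
  have hy : 0 < ‖p + s * d‖ ^ 2 := by
    refine pow_pos (norm_pos_iff.2 fun h0 => h ?_) 2
    rw [← hh_line d p s, h0, map_zero]
  rw [dens_eq, ← ENNReal.ofReal_mul (by positivity), show |hh d p| / ‖p + s * d‖ ^ 2 *
    g (‖p + s * d‖ ^ 2) = |hh d p| * (g (‖p + s * d‖ ^ 2) / ‖p + s * d‖ ^ 2) by ring,
    ENNReal.ofReal_mul (abs_nonneg _), ← radial hy,
    ← lintegral_const_mul' _ _ ENNReal.ofReal_ne_top]
  refine setLIntegral_congr_fun measurableSet_Ioi fun t ht => ?_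
  have ht : 0 < t := zero_lt_one.trans ht
  simp only [dens_eq]
  rw [← ENNReal.ofReal_mul (abs_nonneg _), ← ENNReal.ofReal_mul (abs_nonneg _), norm_smul, abs_mul,
    Real.norm_eq_abs, abs_of_pos ht, mul_pow, real_smul]
  congr 1; ring

theorem area_null {A : Set ℂ} (h : volume A = 0) : area A = 0 := setLIntegral_measure_zero _ _ h

theorem line_null (d : ℂ) : volume (Submodule.span ℝ {d} : Set ℂ) = 0 := by
  refine Measure.addHaar_submodule _ _ fun h => ?_
  have := finrank_span_le_card (R := ℝ) ({d} : Set ℂ)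
  rw [h] at this
  simp at this

theorem sh_line (p : ℂ) {d : ℂ} (hd : ‖d‖ = 1) {T : Set ℂ} (hT : MeasurableSet T)
    (h1 : T ⊆ range fun s : ℝ => p + s * d) {ρ : ℝ} (hρ : 0 < ρ) (h2 : ∀ z ∈ T, ρ ≤ ‖z‖) :
    ENNReal.ofReal ρ * area (Sh T) ≤ len T := by
  by_cases h : hh d p = 0
  · obtain ⟨u, hu⟩ := on_line (x := 0) hd (by rw [h, map_zero])
    rw [area_null (measure_mono_null _ (line_null d)), mul_zero]
    · exact zero_le
    rintro _ ⟨y, hy, t, -, rfl⟩
    obtain ⟨s, rfl⟩ := h1 hy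
    exact Submodule.mem_span_singleton.2 ⟨t * (u + s), by simp [hu]; ring⟩
  have hA : MeasurableSet ((fun s : ℝ => p + s * d) ⁻¹' T) := hT.preimage (by fun_prop)
  rw [← image_preimage_eq_of_subset h1, area_sh h hA, len_line p hd hA,
    ← lintegral_const_mul' _ _ ENNReal.ofReal_ne_top]
  refine setLIntegral_mono' hA fun s hs => ?_
  have h3 := h2 _ hs
  have h4 : |hh d p| ≤ ‖p + s * d‖ := by
    have := abs_im_le_norm ((starRingEnd ℂ) d * (p + s * d))
    rw [norm_mul, RCLike.norm_conj, hd, one_mul] at this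
    rw [← hh_line d p s, hh_apply]
    simpa only [mul_im, conj_re, conj_im, neg_mul, ← sub_eq_add_neg] using this
  rw [← mul_assoc, ← ENNReal.ofReal_mul hρ.le]
  refine mul_le_of_le_one_left zero_le (ENNReal.ofReal_le_one.2 ?_)
  rw [← mul_div_assoc, div_le_one (pow_pos (hρ.trans_le h3) 2), sq]
  exact mul_le_mul h3 h4 (abs_nonneg _) (norm_nonneg _)

theorem Straight.line {e : Set ℂ} (h : Straight e) :
    IsClosed e ∧ ∃ p d : ℂ, ‖d‖ = 1 ∧ e ⊆ range fun s : ℝ => p + s * d := by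
  have key : ∀ p d : ℂ, ∃ u : ℂ, ‖u‖ = 1 ∧ ∀ t : ℝ, p + t * d ∈ range fun s : ℝ => p + s * u := by
    intro p d
    by_cases hd : d = 0
    · exact ⟨1, by simp, fun t => ⟨0, by simp [hd]⟩⟩
    have : (‖d‖ : ℂ) ≠ 0 := by simpa
    exact ⟨d / ‖d‖, by simp [hd], fun t => ⟨t * ‖d‖, by push_cast; field_simp⟩⟩
  rcases h with ⟨p, q, rfl⟩ | ⟨p, d, rfl⟩
  · obtain ⟨u, h1, h2⟩ := key p (q - p)
    rw [segment_eq_image']
    exact ⟨(isCompact_Icc.image (by fun_prop)).isClosed, p, u, h1, by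
      rintro _ ⟨t, -, rfl⟩; exact h2 t⟩
  · obtain ⟨u, h1, h2⟩ := key p d
    refine ⟨?_, p, u, h1, by rintro _ ⟨t, -, rfl⟩; exact h2 t⟩
    by_cases hd : d = 0
    · convert isClosed_singleton (x := p) using 1
      ext z; simpa [hd] using fun _ => ⟨0, le_rfl⟩
    convert (isClosed_eq (show Continuous fun z => ((z - p) / d).im by fun_prop)
      (continuous_const (y := 0))).inter (isClosed_le (continuous_const (y := 0))
      (show Continuous fun z => ((z - p) / d).re by fun_prop)) using 1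
    ext z
    constructor
    · rintro ⟨t, ht, rfl⟩
      simp [hd, ht]
    · rintro ⟨h3, h4⟩
      refine ⟨_, h4, ?_⟩
      rw [show ((((z - p) / d).re : ℝ) : ℂ) = (z - p) / d from Complex.ext rfl (Eq.symm h3)]
      field_simp; ring

theorem sh_le {F : Set (Set ℂ)} (hF : F.Finite) (hs : ∀ e ∈ F, Straight e) {ρ : ℝ} (hρ : 0 < ρ)
    {T : Set ℂ} (hT : MeasurableSet T) (h1 : T ⊆ ⋃₀ F) (h2 : ∀ z ∈ T, ρ ≤ ‖z‖) :
    ENNReal.ofReal ρ * area (Sh T) ≤ len T := by
  induction F, hF using Set.Finite.induction_on generalizing T with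
  | empty =>
    obtain rfl : T = ∅ := by simpa using h1
    simp [Sh, area]
  | @insert e F _ _ ih =>
    obtain ⟨hc, p, d, hd, h3⟩ := (hs e (mem_insert ..)).line
    have a := sh_line p hd (hT.inter hc.measurableSet) (inter_subset_right.trans h3) hρ
      fun z hz => h2 z hz.1
    have b := ih (fun e he => hs e (mem_insert_of_mem _ he)) (hT.diff hc.measurableSet)
      (fun z hz => ((sUnion_insert e F ▸ h1) hz.1).resolve_left hz.2) fun z hz => h2 z hz.1
    have c : area (Sh T) ≤ area (Sh (T ∩ e)) + area (Sh (T \ e)) := by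
      refine le_trans (lintegral_mono_set ?_) (lintegral_union_le _ _ _)
      rintro x ⟨y, hy, h⟩
      by_cases h4 : y ∈ e
      exacts [Or.inl ⟨y, ⟨hy, h4⟩, h⟩, Or.inr ⟨y, ⟨hy, h4⟩, h⟩]
    calc _ ≤ ENNReal.ofReal ρ * (area (Sh (T ∩ e)) + area (Sh (T \ e))) := by gcongr
      _ ≤ len (T ∩ e) + len (T \ e) := by rw [mul_add]; exact add_le_add a b
      _ = len T := lintegral_inter_add_sdiff _ _ hc.measurableSet

theorem near {S : Set ℂ} (h : Net120 S) (hc : IsClosed S) {z : ℂ} (hz : z ∈ S) {R : ℝ}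
    (hR : ‖z‖ + 1 ≤ R) : ENNReal.ofReal (g (R ^ 2)) ≤ len S := by
  have h1 : (1 : ℝ≥0∞) ≤ Measure.hausdorffMeasure 1 (S ∩ closedBall z 1) := by
    have := (LipschitzWith.dist_left z).hausdorffMeasure_image_le zero_le_one (S ∩ closedBall z 1)
    rw [hausdorffMeasure_real] at this
    simp only [ENNReal.coe_one, ENNReal.rpow_one, one_mul] at this
    refine le_trans ?_ ((measure_mono (s := Icc 0 1) fun r hr => ?_).trans this)
    · simp
    obtain ⟨y, hy, h2⟩ := escape h hc hz hr.1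
    exact ⟨y, ⟨hy, h2.le.trans hr.2⟩, h2⟩
  calc _ ≤ ENNReal.ofReal (g (R ^ 2)) * Measure.hausdorffMeasure 1 (S ∩ closedBall z 1) :=
        le_mul_of_one_le_right zero_le h1
    _ = ∫⁻ _ in S ∩ closedBall z 1, ENNReal.ofReal (g (R ^ 2)) ∂Measure.hausdorffMeasure 1 :=
        (setLIntegral_const _ _).symm
    _ ≤ len (S ∩ closedBall z 1) := by
        refine setLIntegral_mono' (hc.inter isClosed_closedBall).measurableSet fun y hy =>
          ENNReal.ofReal_le_ofReal (g_anti (pow_le_pow_left₀ (norm_nonneg _) ?_ 2))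
        linarith [norm_sub_norm_le y z, mem_closedBall_iff_norm.1 hy.2]
    _ ≤ len S := lintegral_mono_set inter_subset_left

theorem lower {S : Set ℂ} {E : Fin 41 → Set ℂ} (hP : PolyPart S E) (h : Net120 S) {R : ℝ}
    (hR : 1 < R) (hl : len S < ENNReal.ofReal (g (R ^ 2))) {v : ℝ≥0∞} (hv : ∀ i, v ≤ area (E i)) :
    ENNReal.ofReal (R - 1) * (64 * v) ≤ len S := by
  classical
  obtain ⟨⟨F, hF, hs, hS⟩, h1, h2, h3⟩ := hP
  have hc : IsClosed S := by
    rw [← isOpen_compl_iff, ← h3]; exact isOpen_iUnion h1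
  have hρ : ∀ z ∈ S, R - 1 ≤ ‖z‖ := fun z hz => by
    by_contra h4
    exact absurd (near h hc hz (R := R) (by linarith [not_le.1 h4])) (not_le.2 hl)
  have H : Setup S E := ⟨h, hc, fun h0 => by simpa using (hρ 0 h0).trans_lt' (sub_pos.2 hR), h1, h2,
    h3⟩
  obtain ⟨i, hi⟩ := mem_iUnion.1 (h3 ▸ H.zero : (0 : ℂ) ∈ ⋃ i, E i)
  have key : ∀ (J : Finset (Fin 41)) (k : ℕ) (A : Set ℂ), k ≤ J.card → (∀ j ∈ J, E j ⊆ A) →
      k * v ≤ area A := fun J k A hk hA => by
    refine le_trans ?_ (lintegral_mono_set (iUnion₂_subset hA))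
    rw [lintegral_biUnion_finset (fun a _ b _ hab => h2 a b hab) fun a _ => (h1 a).measurableSet]
    refine le_trans ?_ (Finset.card_nsmul_le_sum J _ v fun j _ => hv j)
    rw [nsmul_eq_mul]
    gcongr
  have a := key (Finset.univ.erase i) 40 _ (by simp [Finset.card_erase_of_mem])
    fun j hj x hx => (H.cover hi (Finset.ne_of_mem_erase hj) hx).1
  have b := key (Finset.univ.erase i \ Finset.univ.filter fun j => ∃ p d, ‖d‖ = 1 ∧ V S E p d j)
    24 _ (by
      have := Finset.le_card_sdiff (Finset.univ.filter fun j => ∃ p d, ‖d‖ = 1 ∧ V S E p d j)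
        (Finset.univ.erase i)
      have h5 := H.card
      simp only [Finset.card_erase_of_mem (Finset.mem_univ i), Finset.card_univ,
        Fintype.card_fin] at this
      omega)
    fun j hj x hx => (H.cover hi (Finset.ne_of_mem_erase (Finset.mem_sdiff.1 hj).1) hx).2
      (by simpa using (Finset.mem_sdiff.1 hj).2)
  have c : area (Sh {x | ∃ d, ‖d‖ = 1 ∧ Tri S x d}) = 0 := by
    refine area_null (measure_mono_null ?_
      ((measure_biUnion_null_iff (tri_countable S)).2 fun y _ => line_null y))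
    rintro _ ⟨y, hy, t, -, rfl⟩
    exact mem_biUnion hy (Submodule.mem_span_singleton.2 ⟨t, rfl⟩)
  have b' := b.trans (lintegral_union_le _ _ _)
  rw [show ∫⁻ z in Sh {x | ∃ d, ‖d‖ = 1 ∧ Tri S x d}, dens z = 0 from c, add_zero] at b'
  have m := (isClosed_closure (s := Cn S)).measurableSet
  have d1 := sh_le hF hs (sub_pos.2 hR) (hc.measurableSet.inter m) (hS ▸ inter_subset_left)
    fun z hz => hρ z hz.1
  have d2 := sh_le hF hs (sub_pos.2 hR) (hc.measurableSet.diff m) (hS ▸ diff_subset)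
    fun z hz => hρ z hz.1
  calc _ = ENNReal.ofReal (R - 1) * ((40 : ℕ) * v) + ENNReal.ofReal (R - 1) * ((24 : ℕ) * v) := by
        push_cast; ring
    _ ≤ len (S ∩ closure (Cn S)) + len (S \ closure (Cn S)) :=
        add_le_add (le_trans (by gcongr) d1) (le_trans (by gcongr; exact b') d2)
    _ = len S := lintegral_inter_add_sdiff _ _ m

end Pool.Agent.H.MP_3699be_gt
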