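import Mathlib

namespace Pool.Agent.H.MP_3699be_gt

open MeasureTheory Set

/-- The Gaussian density on the plane `ℂ`. -/
noncomputable def dens (z : ℂ) : ENNReal :=
  ENNReal.ofReal (Real.exp (-‖z‖ ^ 2 / 2) / (2 * Real.pi))

/-- Weighted area. -/
noncomputable def area (A : Set ℂ) : ENNReal := ∫⁻ z in A, dens z

/-- Weighted length. -/
noncomputable def len (S : Set ℂ) : ENNReal := ∫⁻ z in S, dens z ∂(Measure.hausdorffMeasure 1)

/-- A closed segment or a closed half-line. -/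
def Straight (e : Set ℂ) : Prop :=
  (∃ p q : ℂ, e = segment ℝ p q) ∨ ∃ p d : ℂ, e = {z | ∃ t : ℝ, 0 ≤ t ∧ z = p + t * d}

/-- `S` is a finite union of segments and half-lines and its complement is the disjoint union of
the open regions `E i`. -/
def PolyPart {n : ℕ} (S : Set ℂ) (E : Fin n → Set ℂ) : Prop :=
  (∃ F : Set (Set ℂ), F.Finite ∧ (∀ e ∈ F, Straight e) ∧ S = ⋃₀ F) ∧
    (∀ i, IsOpen (E i)) ∧ (∀ i j, i ≠ j → Disjoint (E i) (E j)) ∧ ⋃ i, E i = Sᶜ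

/-- Near each of its points `S` is a straight line or three half-lines at 120 degrees. -/
def Net120 (S : Set ℂ) : Prop :=
  ∀ x ∈ S, ∃ ε : ℝ, 0 < ε ∧ ∃ d : ℂ, ‖d‖ = 1 ∧
    ((∀ z, ‖z - x‖ < ε → (z ∈ S ↔ ∃ t : ℝ, z = x + t * d)) ∨
      ∀ z, ‖z - x‖ < ε → (z ∈ S ↔ ∃ t : ℝ, 0 ≤ t ∧ ∃ w : ℂ, w ^ 3 = 1 ∧ z = x + t * (w * d)))

end Pool.Agent.H.MP_3699be_gt
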