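import Pool.Agent.H.MP_3699be_gt.D

namespace Pool.Agent.H.MP_3699be_gt

open Set Filter Topology Complex Metric MeasureTheory
open scoped ENNReal

noncomputable def yy (m : Fin 41) : ℂ := ⟨1000, (m : ℕ) / 80⟩

def ray (m : Fin 41) : Set ℂ := {z | ∃ t : ℝ, 0 ≤ t ∧ z = yy m + t * yy m}

def seg : Set ℂ := (fun s : ℝ => ((1000 : ℝ) : ℂ) + s * I) '' Icc 0 (1 / 2)

def S₀ : Set ℂ := seg ∪ ⋃ m, ray m

def Q : Set ℂ := {z | 1000 ≤ z.re ∧ 0 ≤ z.im ∧ 80000 * z.im ≤ 40 * z.re}

def E₀ (j : Fin 41) : Set ℂ :=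
  if j = 0 then Qᶜ else
    {z | 1000 < z.re ∧ (((j : ℕ) : ℝ) - 1) * z.re < 80000 * z.im ∧ 80000 * z.im < (j : ℕ) * z.re}

theorem le40 (m : Fin 41) : ((m : ℕ) : ℝ) ≤ 40 := by exact_mod_cast Nat.lt_succ_iff.1 m.2

theorem one_le {m : Fin 41} (h : m ≠ 0) : (1 : ℝ) ≤ (m : ℕ) := by
  exact_mod_cast Nat.one_le_iff_ne_zero.2 fun h' => h (Fin.ext h')

theorem mem_S₀ (z : ℂ) :
    z ∈ S₀ ↔ z ∈ Q ∧ (z.re = 1000 ∨ ∃ m : Fin 41, 80000 * z.im = (m : ℕ) * z.re) := by
  constructor
  · rintro (⟨s, hs, rfl⟩ | h)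
    · simp only [Q, mem_setOf]
      norm_num
      exact ⟨hs.1, by linarith [hs.2]⟩
    · obtain ⟨m, t, ht, rfl⟩ := mem_iUnion.1 h
      have := le40 m
      have h0 : (0 : ℝ) ≤ (m : ℕ) := by positivity
      refine ⟨⟨?_, ?_, ?_⟩, Or.inr ⟨m, ?_⟩⟩ <;> simp [yy] <;> nlinarith
  · rintro ⟨⟨h1, h2, h3⟩, h | ⟨m, h⟩⟩
    · exact Or.inl ⟨z.im, ⟨h2, by linarith⟩, by apply Complex.ext <;> simp [h]⟩
    · refine Or.inr (mem_iUnion.2 ⟨m, z.re / 1000 - 1, by linarith, ?_⟩)
      apply Complex.ext <;> simp only [yy, add_re, add_im, re_ofReal_mul, im_ofReal_mul] <;> linarith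

theorem part : PolyPart S₀ E₀ := by
  have sub : ∀ j, j ≠ 0 → E₀ j ⊆ Q := fun j hj z hz => by
    simp only [E₀, hj, if_false] at hz
    obtain ⟨a, b, c⟩ := hz
    exact ⟨a.le, by nlinarith [one_le hj], by nlinarith [le40 j]⟩
  refine ⟨⟨insert seg (range ray), (finite_range _).insert _, ?_, by simp [S₀]⟩, fun j => ?_,
    fun i j hij => ?_, ?_⟩
  · rintro _ (rfl | ⟨m, rfl⟩)
    · refine Or.inl ⟨(1000 : ℝ), (1000 : ℝ) + (1 / 2 : ℝ) * I, ?_⟩
      rw [segment_eq_image']
      ext z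
      constructor
      · rintro ⟨s, hs, rfl⟩
        exact ⟨2 * s, ⟨by linarith [hs.1], by linarith [hs.2]⟩, by simp; ring⟩
      · rintro ⟨s, hs, rfl⟩
        exact ⟨s / 2, ⟨by linarith [hs.1], by linarith [hs.2]⟩, by simp; ring⟩
    · exact Or.inr ⟨_, _, rfl⟩
  · unfold E₀
    split_ifs
    · refine isOpen_compl_iff.2 ?_
      refine IsClosed.and ?_ (IsClosed.and ?_ ?_) <;> exact isClosed_le (by fun_prop) (by fun_prop)
    · refine IsOpen.and ?_ (IsOpen.and ?_ ?_) <;> exact isOpen_lt (by fun_prop) (by fun_prop)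
  · wlog h : i < j generalizing i j
    · exact (this j i hij.symm (lt_of_le_of_ne (not_lt.1 h) hij.symm)).symm
    have hj : j ≠ 0 := Fin.pos_iff_ne_zero.1 ((Fin.zero_le i).trans_lt h)
    refine disjoint_left.2 fun z a b => ?_
    by_cases hi : i = 0
    · simp only [E₀, hi, if_true] at a
      exact a (sub j hj b)
    · simp only [E₀, hi, hj, if_false] at a b
      have : ((i : ℕ) : ℝ) + 1 ≤ (j : ℕ) := by exact_mod_cast h
      nlinarith [a.1, a.2.2, b.2.1]
  · ext z
    rw [mem_iUnion, mem_compl_iff, mem_S₀]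
    constructor
    · rintro ⟨j, hj⟩ ⟨hQ, h⟩
      by_cases h0 : j = 0
      · simp only [E₀, h0, if_true] at hj
        exact hj hQ
      simp only [E₀, h0, if_false] at hj
      obtain ⟨a, b, c⟩ := hj
      rcases h with h | ⟨m, h⟩
      · linarith
      rw [h] at b c
      have b' : ((j : ℕ) : ℝ) < (m : ℕ) + 1 := by nlinarith
      have c' : ((m : ℕ) : ℝ) < (j : ℕ) := by nlinarith
      norm_cast at b' c'
      omega
    · intro h
      by_cases hQ : z ∈ Q
      swap
      · exact ⟨0, by simpa [E₀] using hQ⟩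
      push Not at h
      obtain ⟨h1, h2⟩ := h hQ
      obtain ⟨a, b, c⟩ := hQ
      have hr : 0 < z.re := by linarith
      have h3 : 80000 * z.im / z.re ≤ (40 : ℕ) := by rw [div_le_iff₀ hr]; exact_mod_cast c
      set k := ⌈80000 * z.im / z.re⌉₊
      have hk : k < 41 := Nat.lt_succ_iff.2 (Nat.ceil_le.2 h3)
      have h4 : 80000 * z.im ≤ k * z.re := (div_le_iff₀ hr).1 (Nat.le_ceil _)
      have h5 := lt_of_le_of_ne h4 (h2 ⟨k, hk⟩)
      have h6 : (k : ℝ) < 80000 * z.im / z.re + 1 := Nat.ceil_lt_add_one (by positivity)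
      rw [← sub_lt_iff_lt_add, lt_div_iff₀ hr] at h6
      have h7 : (⟨k, hk⟩ : Fin 41) ≠ 0 := fun h => by
        have : k = 0 := congrArg Fin.val h
        rw [this] at h5
        simp at h5
        linarith
      exact ⟨⟨k, hk⟩, by
        simp only [E₀, h7, if_false]; exact ⟨lt_of_le_of_ne a (Ne.symm h1), h6, h5⟩⟩

theorem len_seg : len seg ≤ ENNReal.ofReal (g (1000 ^ 2) / 2) := by
  rw [seg, len_line _ norm_I measurableSet_Icc]
  refine (setLIntegral_mono' measurableSet_Icc (g := fun _ => ENNReal.ofReal (g (1000 ^ 2)))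
    fun s _ => ENNReal.ofReal_le_ofReal (g_anti ?_)).trans ?_
  · rw [← normSq_eq_norm_sq, normSq_add_mul_I]; nlinarith
  · rw [setLIntegral_const, Real.volume_Icc, ← ENNReal.ofReal_mul (g_pos _).le]
    exact ENNReal.ofReal_le_ofReal (by linarith)

theorem len_ray (m : Fin 41) : len (ray m) ≤ ENNReal.ofReal (g (1000 ^ 2) / 1000) := by
  have h1 : 1000 ≤ ‖yy m‖ := le_trans (by simp [yy]) (re_le_norm _)
  have h2 : ‖yy m‖ ≠ 0 := by linarith
  have h3 : (‖yy m‖ : ℂ) ≠ 0 := ofReal_ne_zero.2 h2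
  have e : ray m = (fun s : ℝ => yy m + s * (yy m / ‖yy m‖)) '' Ici 0 := by
    ext z
    constructor
    · rintro ⟨t, ht, rfl⟩
      exact ⟨t * ‖yy m‖, by simp only [mem_Ici]; positivity, by push_cast; field_simp⟩
    · rintro ⟨t, ht, rfl⟩
      exact ⟨t / ‖yy m‖, div_nonneg ht (norm_nonneg _), by push_cast; field_simp⟩
  rw [e, len_line _ (by simp [h2]) measurableSet_Ici]
  refine (setLIntegral_mono' measurableSet_Ici
    (g := fun s => ENNReal.ofReal (g (1000 ^ 2) * Real.exp (-1000 * s)))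
    fun s hs => ENNReal.ofReal_le_ofReal ?_).trans ?_
  · have hs : 0 ≤ s := hs
    have : ‖yy m + s * (yy m / ‖yy m‖)‖ = ‖yy m‖ + s := by
      rw [show yy m + s * (yy m / ‖yy m‖) = ((‖yy m‖ + s : ℝ) : ℂ) * (yy m / ‖yy m‖) by
        push_cast; field_simp, norm_mul, norm_real, Real.norm_of_nonneg (by positivity)]
      simp [h2]
    rw [this]
    refine (g_anti (r := 1000 ^ 2 + 2000 * s) (by nlinarith)).trans_eq ?_
    unfold g
    rw [div_mul_eq_mul_div, ← Real.exp_add]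
    congr 2; ring
  · rw [← restrict_Ioi_eq_restrict_Ici, ← ofReal_integral_eq_lintegral_ofReal
      ((integrableOn_exp_mul_Ioi (by norm_num) 0).const_mul _)
      (Eventually.of_forall fun s => mul_nonneg (g_pos _).le (Real.exp_pos _).le),
      integral_const_mul, integral_exp_mul_Ioi (by norm_num)]
    exact ENNReal.ofReal_le_ofReal (by simp; linarith)

theorem len_S₀ : len S₀ ≤ ENNReal.ofReal (541 / 1000 * g (1000 ^ 2)) := by
  have := g_pos (1000 ^ 2)
  refine (lintegral_union_le _ _ _).trans ((add_le_add len_seg ((lintegral_iUnion_le _ _).trans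
    (ENNReal.tsum_le_tsum len_ray))).trans_eq ?_)
  rw [tsum_fintype, ← ENNReal.ofReal_sum_of_nonneg fun _ _ => by positivity,
    ← ENNReal.ofReal_add (by positivity) (by positivity)]
  simp only [Finset.sum_const, Finset.card_univ, Fintype.card_fin, nsmul_eq_mul]
  congr 1; push_cast; ring

theorem area_piece {c a : ℝ} (hc : |c| = 1000) (h0 : 0 ≤ a) (h1 : a + 1 / 80 ≤ 1 / 2) :
    ENNReal.ofReal (1 / 92000 * g (1000 ^ 2)) ≤
      area (Sh ((fun s : ℝ => (c : ℂ) + s * I) '' Ioo a (a + 1 / 80))) := by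
  have := g_pos (1000 ^ 2)
  have h2 : |hh I c| = 1000 := by simpa [hh_apply] using hc
  rw [area_sh (by intro h; rw [h] at h2; norm_num at h2) measurableSet_Ioo]
  refine le_trans ?_ (setLIntegral_mono' measurableSet_Ioo
    (f := fun _ => ENNReal.ofReal (80 / 92000 * g (1000 ^ 2))) fun s hs => ?_)
  · rw [setLIntegral_const, Real.volume_Ioo, ← ENNReal.ofReal_mul (by positivity)]
    exact ENNReal.ofReal_le_ofReal (by linarith)
  · have h3 : ‖(c : ℂ) + s * I‖ ^ 2 = 1000 ^ 2 + s ^ 2 := by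
      rw [← normSq_eq_norm_sq, normSq_add_mul_I, ← sq_abs c, hc]
    have h4 : s ^ 2 ≤ 1 / 4 := by nlinarith [hs.1, hs.2]
    rw [dens_eq, h2, h3, ← ENNReal.ofReal_mul (by positivity)]
    refine ENNReal.ofReal_le_ofReal ?_
    have h5 : 7 / 8 * g (1000 ^ 2) ≤ g (1000 ^ 2 + s ^ 2) := by
      refine le_trans ?_ (g_anti (s := 1000 ^ 2 + 1 / 4) (by linarith))
      have e : g (1000 ^ 2 + 1 / 4) = Real.exp (-(1 / 8)) * g (1000 ^ 2) := by
        unfold g
        rw [← mul_div_assoc, ← Real.exp_add]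
        congr 2; ring
      rw [e]
      exact mul_le_mul_of_nonneg_right (by linarith [Real.add_one_le_exp (-(1 / 8))]) this.le
    have h6 : 999 / 1000000 ≤ 1000 / (1000 ^ 2 + s ^ 2) := by
      rw [le_div_iff₀ (by positivity)]; linarith
    refine le_trans ?_ (mul_le_mul h6 h5 (by positivity) (by positivity))
    generalize g (1000 ^ 2) = G at *
    linarith

theorem area_E₀ (j : Fin 41) : ENNReal.ofReal (1 / 92000 * g (1000 ^ 2)) ≤ area (E₀ j) := by
  by_cases h : j = 0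
  · refine (area_piece (c := -1000) (a := 0) (by norm_num) le_rfl (by norm_num)).trans
      (lintegral_mono_set ?_)
    rintro _ ⟨_, ⟨s, -, rfl⟩, t, ht, rfl⟩
    simp only [E₀, h, if_true]
    rintro ⟨a, -⟩
    simp at a
    linarith
  · refine (area_piece (c := 1000) (a := ((j : ℕ) - 1) / 80) (by norm_num)
      (by linarith [one_le h]) (by linarith [le40 j])).trans (lintegral_mono_set ?_)
    rintro _ ⟨_, ⟨s, hs, rfl⟩, t, ht, rfl⟩
    simp only [E₀, h, if_false]
    refine ⟨?_, ?_, ?_⟩ <;> simp <;> nlinarith [hs.1, hs.2]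

theorem final {S : Set ℂ} {E : Fin 41 → Set ℂ} (hP : PolyPart S E) (h : Net120 S)
    (ha : ∀ i, area (E i) = area (E₀ i)) : len S₀ < len S := by
  have := g_pos (1000 ^ 2)
  by_contra hl
  have h1 := (not_lt.1 hl).trans len_S₀
  have h2 := (lower hP h (R := 1000) (by norm_num) (h1.trans_lt ((ENNReal.ofReal_lt_ofReal_iff
    this).2 (mul_lt_of_lt_one_left this (by norm_num)))) fun i => ha i ▸ area_E₀ i).trans h1
  rw [show (64 : ℝ≥0∞) = ENNReal.ofReal 64 by simp, ← ENNReal.ofReal_mul (by norm_num),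
    ← ENNReal.ofReal_mul (by norm_num), ENNReal.ofReal_le_ofReal_iff (by positivity)] at h2
  generalize g (1000 ^ 2) = G at *
  linarith

theorem total {n : ℕ} {S : Set ℂ} {E : Fin n → Set ℂ} (hP : PolyPart S E) :
    ∑ i, area (E i) = 1 := by
  obtain ⟨⟨F, hF, hs, hS⟩, h1, h2, h3⟩ := hP
  have h0 : volume S = 0 := by
    rw [hS, measure_sUnion_null_iff hF.countable]
    intro e he
    obtain ⟨-, p, d, -, h⟩ := (hs e he).line
    refine measure_mono_null (h.trans ?_) ((measure_preimage_add volume (-p) _).trans (line_null d))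
    rintro _ ⟨s, rfl⟩
    exact Submodule.mem_span_singleton.2 ⟨s, by simp⟩
  have h4 := lintegral_iUnion (μ := volume) (fun i => (h1 i).measurableSet) h2 dens
  rw [tsum_fintype, h3, Measure.restrict_eq_self_of_ae_mem (by
    rw [ae_iff]; simpa using h0)] at h4
  refine h4.symm.trans ?_
  have h5 := GaussianFourier.integral_rexp_neg_mul_sq_norm (V := ℂ) (b := 1 / 2) (by norm_num)
  have h6 : ∫ z : ℂ, Real.exp (-‖z‖ ^ 2 / 2) / (2 * Real.pi) = 1 := by
    rw [integral_div, show (fun z : ℂ => Real.exp (-‖z‖ ^ 2 / 2)) =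
      fun z => Real.exp (-(1 / 2) * ‖z‖ ^ 2) from funext fun z => by ring_nf, h5]
    simp
    field_simp
  unfold dens
  rw [← ofReal_integral_eq_lintegral_ofReal (Integrable.of_integral_ne_zero (by simp [h6]))
    (Eventually.of_forall fun z => by positivity), h6, ENNReal.ofReal_one]

end Pool.Agent.H.MP_3699be_gt
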